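import Pool.Agent.Lib.MP_359994_co.BuildFour

/-!
# Disproof of the Berge-cycle covering question (MP_359994_co, Q1)

For every `s ≥ 4` there are `s`-colourings of the edges of `K_n` (the case `k = 2`, where
`s (k - 1) = s`) in which any `s` vertex-disjoint monochromatic cycles (or paths) leave a positive
proportion of the vertices uncovered.

Idea: blow up the affine plane of order 3 (colours = the four directions; monochromatic
components = the twelve lines) with blocks of the sizes `1, 3, 1, 3, 1, 13, 5, 1, 15` (times `n/43`)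
and one colour inside each block. For any four of the twelve lines one of thirteen certificates
applies: a set `I` of blocks such that the neighbours of the vertices of `I` along the four lines
all lie in a set `N` of blocks that is smaller than `I`. Further colours are added with small sets
all of whose edges get the new colour.
-/

set_option autoImplicit false

open Pool.Agent.Lib.MP_359994_co

namespace Pool.Agent.Results.MP_359994_co.FourColours

/-- For every `s ≥ 4` there are `δ > 0` and `N` such that for all `n ≥ N` there is a colouring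
`χ` of the edges of the complete graph on `[n]` with `s` colours such that every family of at most
`s` monochromatic Berge-cycles or Berge-paths with pairwise disjoint cores leaves at least `δ n`
vertices uncovered. -/
theorem result (s : ℕ) (hs : 4 ≤ s) :
    ∃ δ : ℝ, 0 < δ ∧ ∃ N : ℕ, ∀ n : ℕ, N ≤ n → ∃ χ : KEdge n 2 → Fin s,
      ∀ t : ℕ, t ≤ s → ∀ (X : Fin t → Finset (Fin n)) (F : Fin t → Finset (KEdge n 2)),
        (∀ i, (IsBergeCycle (X i) (F i) ∨ IsBergePath (X i) (F i)) ∧ Mono χ (F i)) →
        (∀ i j, i ≠ j → Disjoint (X i) (X j)) →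
        δ * (n : ℝ) ≤ ((Finset.univ \ Finset.univ.biUnion X).card : ℝ) := by
  obtain ⟨t, rfl⟩ := Nat.exists_eq_add_of_le hs
  refine ⟨1 / 2 ^ (t + 12), by positivity, 2 ^ (t + 12) * (5 + t), ?_⟩
  intro n hn
  have h1 : 2 ^ (t + 11) ≤ n := by
    refine le_trans ?_ hn
    calc 2 ^ (t + 11) ≤ 2 ^ (t + 12) := Nat.pow_le_pow_right (by norm_num) (by omega)
      _ ≤ 2 ^ (t + 12) * (5 + t) := Nat.le_mul_of_pos_right _ (by omega)
  obtain ⟨χ, hχ⟩ := Four.paths_lower t n h1
  refine ⟨χ, ?_⟩
  intro T hT X F hXF hdisj
  have hpath : ∀ i, ∃ F' ⊆ F i, IsBergePath (X i) F' := by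
    intro i
    rcases (hXF i).1 with h | h
    · exact Four.path_of_cycle h
    · exact ⟨F i, Finset.Subset.refl _, h⟩
  choose F' hF' hP using hpath
  set c := (Finset.univ \ Finset.univ.biUnion X).card with hc
  have hp : CoversAllBut IsBergePath χ (4 + t) c :=
    ⟨T, hT, X, F', fun i => ⟨hP i, fun f hf g hg => (hXF i).2 f (hF' i hf) g (hF' i hg)⟩,
      hdisj, le_rfl⟩
  have h2 := hχ c hp
  have h3 : n ≤ 2 ^ (t + 12) * c := by
    by_contra hlt
    push Not at hlt
    have e1 : 2 ^ (t + 12) = 2 * 2 ^ (t + 11) := by rw [pow_succ]; ring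
    rw [e1] at hlt hn
    nlinarith
  rw [one_div, inv_mul_le_iff₀ (by positivity)]
  exact_mod_cast h3

/-- The assertion of Q1 is false (consequence of `result`, recorded for the reader). -/
theorem not_conjecture : ¬ BergeCycleCoverConjecture := by
  intro hQ
  obtain ⟨c, hc⟩ := hQ 4 (by norm_num) 2 le_rfl
  obtain ⟨δ, hδ, N, hN⟩ := result 4 le_rfl
  obtain ⟨m, hm⟩ := exists_nat_gt ((c : ℝ) / δ)
  obtain ⟨χ, hχ⟩ := hN (max N m) (le_max_left _ _)
  have h1 : CoversAllBut IsBergeCycle χ 4 c := hc _ χ
  obtain ⟨t, ht, X, F, h2, h3, h4⟩ := h1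
  have h5 := hχ t ht X F (fun i => ⟨Or.inl (h2 i).1, (h2 i).2⟩) h3
  have h6 : (c : ℝ) < δ * (max N m : ℕ) := by
    rw [div_lt_iff₀ hδ] at hm
    have : (m : ℝ) ≤ ((max N m : ℕ) : ℝ) := by exact_mod_cast le_max_right _ _
    nlinarith
  have h7 : ((Finset.univ \ Finset.univ.biUnion X).card : ℝ) ≤ c := by exact_mod_cast h4
  linarith

end Pool.Agent.Results.MP_359994_co.FourColours
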